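import Pool.Agent.helper7.ZE.Spec

/-!
# MP_baa4d7_al, THEOREM ZE, row YUL: a unit class goes up from `K` to `Nw K w`
-/

set_option autoImplicit false

namespace Pool.Agent.NE.NY

open Pool.Agent.helper58.DC Pool.Agent.DI Pool.Agent.GR Pool.Agent.OB Pool.Agent.DR Pool.Agent.FI Pool.Agent.FI3 Pool.Agent.FI4 Pool.Agent.FI4I Pool.Agent.LE Pool.Agent.L5
open Pool.Agent.NAB hiding Ucl BE NUB_stmt NUD_stmt NUH_stmt NUE_stmt NUF_stmt NTK_stmt NXU_stmt NQU_stmt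
open Pool.Agent.ND hiding GS ZD XX PP ZGD_stmt ZNU_stmt GBC_stmt GUC_stmt GSP_stmt GIM_stmt GST_stmt GOS_stmt GS4_stmt GFX_stmt GAC_stmt GGR_stmt GOU_stmt GSY_stmt GVF_stmt GNV_stmt GDF_stmt GC1_stmt GEV_stmt GQQ_stmt GKQ_stmt TDC_stmt GKE_stmt GKD_stmt TDI_stmt TDL_stmt TDF_stmt NDQ_stmt
open Pool.Agent.ND.NY
open Pool.Agent.ZB (Pm Om KZ EQ BQ lQ MZc BDK)

theorem YUL_pow {p : ℕ} (hp : p.Prime) (e n : ℕ) : n ≤ p ^ (e + n) :=
  (Nat.lt_pow_self hp.one_lt).le.trans (Nat.pow_le_pow_right hp.pos (Nat.le_add_left _ _))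

theorem YUL (hYUL : Pool.Agent.NE.YUL_stmt) (hYDF : YDF_stmt) (hYIX : YIX_stmt) (hDEX : DEX_stmt) (hDGL : DGL_stmt)
    (hSYL : SYL_stmt) (hYE1 : YE1_stmt) : YUL_stmt := by
  intro p e m M hM G _ _ K w hw hp φ' hφ' φ hφ hmt hst z x hU
  have hfact : Fact p.Prime := ⟨hM.pr⟩
  obtain ⟨s1, s2, -, s4, s5, -⟩ := hSYL p G
  have hKK' : K ≤ Nw K w := le_sup_left
  have hK'n : Nw K w ≤ nz K := sup_le Subgroup.le_normalizer (Subgroup.zpowers_le.2 hw)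
  obtain ⟨k, hk1, hk2⟩ := hYIX p hM.pr G K (Nw K w) hKK' hp
  -- all fields except `df`
  have hU' : Pool.Agent.NAB.Ucl p e (pp p (Cz K (z * x))) M K φ z x :=
    { pe := hU.pe
      re := hU.re
      co := hU.co
      zm := hU.zm
      xm := hU.xm
      od := hU.od
      ne := hU.ne
      cd := YUL_pow hM.pr _ _ }
  have hUp := hYUL p e _ M hM G K (Nw K w) hKK' hK'n ⟨k, hk1, hk2⟩ φ' hφ' φ hφ hmt hst z x hU'
  obtain ⟨D, y, hD, hKY⟩ := hU.df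
  -- (a)
  have hU1 : Pool.Agent.NAB.Ucl p 0 (pp p (Cz K (1 * y))) M K φ 1 y :=
    { pe := ⟨0, one_pow _⟩
      re := hD.reg
      co := by rw [one_mul, mul_one]
      zm := K.one_mem
      xm := hD.mem
      od := by rw [orderOf_one, pow_zero]
      ne := by rw [one_mul]; exact hD.ne
      cd := YUL_pow hM.pr _ _ }
  have hUp1 := (hYUL p 0 _ M hM G K (Nw K w) hKK' hK'n ⟨k, hk1, hk2⟩ φ' hφ' φ hφ hmt hst 1 y hU1).ne
  rw [one_mul] at hUp1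
  obtain ⟨D', y', hD', -⟩ := hDEX p M hM G (Nw K w) φ' hφ'
  have hmin := hD'.min y (hKK' hD.mem) hUp1
  -- (b)
  have hb : pp p (Cz (Nw K w) y) ≤ pp p (Cz K y) := by
    obtain ⟨S, -, hS2, hS3, hS4⟩ := s2 ⊥ (Cz (Nw K w) y) (IsPGroup.of_bot) bot_le
    rw [← hS4]
    refine (s1 S (Cz K y) hS3 ?_).1
    intro t ht
    have h1 := hS2 ht
    refine ⟨hp t h1.1 ?_, h1.2⟩
    obtain ⟨j, hj⟩ := hS3 ⟨t, ht⟩
    exact ⟨j, by simpa using congrArg Subtype.val hj⟩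
  -- (c)
  obtain ⟨θ, hθ, hSBθ⟩ := hDGL p M hM G K φ hφ D y hD
  obtain ⟨l, -, hlD⟩ := hYDF p M hM G K w hw hp φ hφ φ' hφ' hmt D (hD.le.trans inf_le_left) hD.pg θ hθ hSBθ D' y' hD'
  have hle : cjS l⁻¹ D ≤ D' := by
    rintro t ht
    obtain ⟨r, hr, rfl⟩ := Subgroup.mem_map.1 ht
    have h1 := hlD r hr
    simpa [MulAut.conj_apply] using h1
  have hcard : Nat.card D' ≤ Nat.card (cjS l⁻¹ D) := by
    rw [(s5 D l⁻¹).2, hD.card]
    exact hmin.trans hb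
  have heq : cjS l⁻¹ D = D' := Subgroup.eq_of_le_of_card_ge hle hcard
  exact
    { pe := hUp.pe
      re := hUp.re
      co := hUp.co
      zm := hUp.zm
      xm := hUp.xm
      od := hUp.od
      ne := hUp.ne
      df := ⟨D', y', hD', by rw [← heq]; exact ((hYE1 p hM.pr m G D).1 e hKY).2.2.2.2.1 l⁻¹⟩ }

end Pool.Agent.NE.NY
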